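import Pool.Agent.Lib.MP_c7af3c_ag.GEN.Groups

/-!
# Module GFIB (helper32)
-/

set_option autoImplicit false

namespace Pool.Agent.Gen.H32

open AlgebraicGeometry CategoryTheory CategoryTheory.Limits

theorem gfib : GfibStatement := by
  intro A X Y hA g i hi h a b
  have hirr : IrreducibleSpace A := inferInstance
  have hconn : PreconnectedSpace A := inferInstance
  set y : Y := (g ≫ i).base a with hy
  have hd : _root_.IsDiscrete (i ⁻¹' {y}) := i.isDiscrete_preimage_singleton y
  have hmem : ∀ x : A, g x ∈ i ⁻¹' {y} := by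
    intro x
    have h1 : (g ≫ i).base x = y := h x a
    rw [Set.mem_preimage, Set.mem_singleton_iff, ← h1]
    rfl
  haveI : DiscreteTopology (i ⁻¹' {y} : Set X) := hd.to_subtype
  let f : A → (i ⁻¹' {y} : Set X) := fun x => ⟨g x, hmem x⟩
  have hf : Continuous f := Continuous.subtype_mk g.continuous _
  have h1 : _root_.IsPreconnected (Set.range f) := by
    rw [← Set.image_univ]
    exact isPreconnected_univ.image f hf.continuousOn
  have h2 := h1.subsingleton ⟨a, rfl⟩ ⟨b, rfl⟩
  exact congrArg Subtype.val h2

end Pool.Agent.Gen.H32
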